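import Pool.Agent.Hhelper96.PEPS.CommFinal
import Pool.Agent.Hlead.Comm.Main

/-!
Local PEPS approximation of ground states in two dimensions: for commuting interactions the
approximation holds with one translation invariant PEPS tensor for all large tori and with a bond
dimension of order `1 / ε ^ 2`.
-/

set_option autoImplicit false

open Filter Topology
open Pool.Agent.Hhelper96.PEPS

namespace Pool.Agent.Results.MP_0f69bf_mp.CommutingFamilies

/-- Let `h` be a Hermitian finite-range interaction on `ℤ²` with local dimension `d` whose translates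
commute (on all large tori), and such that for all large `L = n + 1` the translation invariant
Hamiltonian `H_L` on the `L × L` torus has a unique ground state `ψ n` (with some gap `Δ n > 0`).
Then for every finite region `R` there is a constant `C` such that for every `ε ∈ (0, 1]` there is
one translation invariant PEPS tensor `A`, of bond dimension `D ≤ C / ε ^ 2`, whose PEPS vector is
nonzero on all large tori, and whose reduced density matrices on all translates of `R` are, on all
large tori, within `ε` in trace norm of those of the ground state. -/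
theorem result (d : ℕ) (F : Finset (ℤ × ℤ)) (h : Matrix (F → Fin d) (F → Fin d) ℂ)
    (hh : h.IsHermitian)
    (hcomm : ∀ᶠ n in atTop, ∀ v w : Site (n + 1),
      localTerm (n + 1) F h v * localTerm (n + 1) F h w =
        localTerm (n + 1) F h w * localTerm (n + 1) F h v)
    (Δ : ℕ → ℝ) (ψ : ∀ n : ℕ, (Site (n + 1) → Fin d) → ℂ)
    (hψ : ∀ᶠ n in atTop, 0 < Δ n ∧ IsGappedGround (hamiltonian (n + 1) F h) (Δ n) (ψ n))
    (R : Finset (ℤ × ℤ)) :
    ∃ C : ℝ, ∀ ε : ℝ, 0 < ε → ε ≤ 1 → ∃ D : ℕ, (D : ℝ) ≤ C / ε ^ 2 ∧
      ∃ A : Fin d → Fin D → Fin D → Fin D → Fin D → ℂ,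
        (∀ᶠ n in atTop, pepsVec (n + 1) A ≠ 0) ∧
        ∀ᶠ n in atTop, ∀ v : Site (n + 1),
          traceNorm (reduced (n + 1) R v (ψ n) - reduced (n + 1) R v (pepsVec (n + 1) A)) ≤ ε :=
  commuting_final d F h hh hcomm Δ ψ hψ R
    (Pool.Agent.Hlead.Comm.commuting_marginals F h hh Δ ψ hψ hcomm R)

end Pool.Agent.Results.MP_0f69bf_mp.CommutingFamilies
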